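import Mathlib

/-! EG-CHI: the real primitive characters. -/

set_option autoImplicit false

namespace Pool.Agent.W551.EG.CHI

/-- If the conductor divides `d`, the character is `1` on the units congruent to `1` mod `d`. -/
theorem eq_one_of_conductor {N : ℕ} [NeZero N] (χ : DirichletCharacter ℂ N) (a : ℤ)
    (ha : IsCoprime a N) (h : ((a : ℤ) : ZMod χ.conductor) = 1) : χ (a : ZMod N) = 1 := by
  have h1 := DirichletCharacter.FactorsThrough.eq_changeLevel
    (χ.factorsThrough_conductor)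
  have h2 := DirichletCharacter.changeLevel_eq_cast_of_dvd'
    (χ.factorsThrough_conductor).χ₀
    χ.conductor_dvd_level ha
  rw [h, map_one] at h2
  conv_lhs => rw [h1]
  exact h2

theorem isSquare_iff_exists (p : ℕ) [Fact p.Prime] (c : ℤ) :
    IsSquare ((c : ℤ) : ZMod p) ↔ ∃ y : ℤ, (p : ℤ) ∣ y ^ 2 - c := by
  constructor
  · rintro ⟨x, hx⟩
    refine ⟨(x.val : ℤ), ?_⟩
    rw [← ZMod.intCast_zmod_eq_zero_iff_dvd _ p] 
    push_cast
    rw [ZMod.natCast_zmod_val, hx]
    ring
  · rintro ⟨y, hy⟩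
    rw [← ZMod.intCast_zmod_eq_zero_iff_dvd _ p] at hy
    push_cast at hy
    refine ⟨(y : ZMod p), ?_⟩
    rw [← sub_eq_zero.1 hy]
    ring

theorem chi_odd (f : ℕ) (hf : f.Prime) (h3 : f % 4 = 3) :
    ∃ χ : DirichletCharacter ℂ f, χ.IsPrimitive ∧
      (∀ n : ℕ, χ (n : ZMod f) = 0 ∨ χ (n : ZMod f) = 1 ∨ χ (n : ZMod f) = -1) ∧
      ∀ p : ℕ, p.Prime → ((∃ r : ℤ, (p : ℤ) ∣ r ^ 2 - 1 * r + ((f : ℤ) + 1) / 4) ↔
        χ (p : ZMod f) ≠ -1) := by
  have hfact : Fact f.Prime := ⟨hf⟩
  have hf2 : f ≠ 2 := by rintro rfl; omega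
  have hne : NeZero f := ⟨hf.ne_zero⟩
  let χ : DirichletCharacter ℂ f := (quadraticChar (ZMod f)).ringHomComp (Int.castRingHom ℂ)
  have hχ : ∀ n : ℤ, χ ((n : ℤ) : ZMod f) = ((legendreSym f n : ℤ) : ℂ) := fun n => rfl
  have hχn : ∀ n : ℕ, χ (n : ZMod f) = ((legendreSym f n : ℤ) : ℂ) := by
    intro n
    have := hχ n
    rw [Int.cast_natCast] at this
    exact this
  have hm1 : legendreSym f (-1) = -1 := by
    rw [legendreSym.at_neg_one hf2, ZMod.χ₄_nat_three_mod_four h3]
  have hχm1 : χ (((-1 : ℤ)) : ZMod f) = -1 := by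
    rw [hχ, hm1]; norm_num
  refine ⟨χ, ?_, ?_, ?_⟩
  · -- primitive
    change χ.conductor = f
    rcases (Nat.dvd_prime hf).1 χ.conductor_dvd_level with h | h
    · exfalso
      have h1 := eq_one_of_conductor χ (-1) (by
        rw [IsCoprime.neg_left_iff]; exact isCoprime_one_left) (by
        rw [h]
        exact Subsingleton.elim _ _)
      rw [hχm1] at h1
      norm_num at h1
    · exact h
  · intro n
    rw [hχn]
    by_cases hn : ((n : ℤ) : ZMod f) = 0
    · left
      rw [(legendreSym.eq_zero_iff f n).2 hn]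
      simp
    · right
      rcases legendreSym.eq_one_or_neg_one f hn with h | h
      · left; rw [h]; simp
      · right; rw [h]; simp
  · intro p hp
    have hpfact : Fact p.Prime := ⟨hp⟩
    obtain ⟨m, hm⟩ : ∃ m : ℤ, ((f : ℤ) + 1) = 4 * m := ⟨((f : ℤ) + 1) / 4, by omega⟩
    have hdiv : ((f : ℤ) + 1) / 4 = m := by omega
    rw [hdiv, hχn]
    have hval : (((legendreSym f p : ℤ) : ℂ) ≠ -1) ↔ legendreSym f p ≠ -1 := by
      rw [not_iff_not]
      constructor
      · intro h
        have h' : ((legendreSym f p : ℤ) : ℂ) = ((-1 : ℤ) : ℂ) := by rw [h]; norm_num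
        exact_mod_cast h'
      · intro h; rw [h]; norm_num
    rw [hval]
    by_cases hpf : p = f
    · subst hpf
      constructor
      · intro _
        rw [(legendreSym.eq_zero_iff p p).2 (by simp)]
        norm_num
      · intro _
        refine ⟨2 * m, m, ?_⟩
        linear_combination (-m) * hm
    by_cases hp2 : p = 2
    · subst hp2
      have h8 : legendreSym f (2 : ℕ) ≠ -1 ↔ (f % 8 = 1 ∨ f % 8 = 7) := by
        rw [← ZMod.exists_sq_eq_two_iff hf2]
        have h2ne : (((2 : ℕ) : ℤ) : ZMod f) ≠ 0 := by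
          intro h0
          have h1 : ((2 : ℕ) : ZMod f) = 0 := by exact_mod_cast h0
          rw [ZMod.natCast_eq_zero_iff] at h1
          exact hf2 ((Nat.prime_dvd_prime_iff_eq hf Nat.prime_two).1 h1)
        have h1 := legendreSym.eq_one_iff f h2ne
        have h2 : (((2 : ℕ) : ℤ) : ZMod f) = 2 := by norm_num
        rw [h2] at h1
        rw [← h1]
        rcases legendreSym.eq_one_or_neg_one f h2ne with h | h
        · rw [h]; simp
        · rw [h]; simp
      rw [h8]
      have hfm : f % 8 = 3 ∨ f % 8 = 7 := by omega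
      constructor
      · rintro ⟨r, c, hc⟩
        rcases hfm with h | h
        · exfalso
          have hmo : m % 2 = 1 := by omega
          rcases Int.even_or_odd' r with ⟨s, hs | hs⟩
          · rw [hs] at hc
            have : (2 * s) ^ 2 - 1 * (2 * s) + m = 2 * (2 * s ^ 2 - s) + m := by ring
            rw [this] at hc
            push_cast at hc
            omega
          · rw [hs] at hc
            have : (2 * s + 1) ^ 2 - 1 * (2 * s + 1) + m = 2 * (2 * s ^ 2 + s) + m := by ring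
            rw [this] at hc
            push_cast at hc
            omega
        · right; exact h
      · intro h
        refine ⟨0, m / 2, ?_⟩
        push_cast
        omega
    -- the main case
    have hpodd : p % 2 = 1 := (Nat.Prime.mod_two_eq_one_iff_ne_two hp).2 hp2
    have hpne : (((p : ℕ) : ℤ) : ZMod f) ≠ 0 := by
      intro h0
      have h1 : ((p : ℕ) : ZMod f) = 0 := by exact_mod_cast h0
      rw [ZMod.natCast_eq_zero_iff] at h1
      exact hpf ((Nat.prime_dvd_prime_iff_eq hf hp).1 h1).symm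
    have hfne : ((-(f : ℤ) : ℤ) : ZMod p) ≠ 0 := by
      intro h0
      rw [Int.cast_neg, neg_eq_zero] at h0
      have h1 : ((f : ℕ) : ZMod p) = 0 := by exact_mod_cast h0
      rw [ZMod.natCast_eq_zero_iff] at h1
      exact hpf ((Nat.prime_dvd_prime_iff_eq hp hf).1 h1)
    have hrec : legendreSym f p = legendreSym p (-(f : ℤ)) := by
      have h1 := legendreSym.quadratic_reciprocity' (p := p) (q := f) hp2 hf2
      have h2 : (-(f : ℤ)) = (-1) * (f : ℤ) := by ring
      rw [h1, h2, legendreSym.mul, legendreSym.at_neg_one hp2,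
        ZMod.χ₄_eq_neg_one_pow hpodd, pow_mul]
      congr 1
      have h4 : Odd (f / 2) := by rw [Nat.odd_iff]; omega
      rcases neg_one_pow_eq_or ℤ (p / 2) with h5 | h5
      · rw [h5, one_pow]
      · rw [h5, h4.neg_one_pow]
    have hsq : legendreSym f p ≠ -1 ↔ IsSquare ((-(f : ℤ) : ℤ) : ZMod p) := by
      rw [hrec, ← legendreSym.eq_one_iff p hfne]
      rcases legendreSym.eq_one_or_neg_one p hfne with h | h
      · rw [h]; simp
      · rw [h]; simp
    rw [hsq, isSquare_iff_exists]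
    constructor
    · rintro ⟨r, c, hc⟩
      refine ⟨2 * r - 1, 4 * c, ?_⟩
      linear_combination 4 * hc + hm
    · rintro ⟨y, c, hc⟩
      -- choose an odd representative
      have hcop : IsCoprime (p : ℤ) 4 := by
        have h1 : Nat.Coprime p 4 := by
          have h2 : Nat.Coprime p (2 ^ 2) := by
            apply Nat.Coprime.pow_right
            rw [Nat.coprime_comm]
            exact (Nat.coprime_primes Nat.prime_two hp).2 (fun h => hp2 h.symm)
          simpa using h2
        exact_mod_cast Nat.isCoprime_iff_coprime.2 h1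
      have key : ∀ y' : ℤ, y' % 2 = 1 → (p : ℤ) ∣ y' ^ 2 - -(f : ℤ) →
          ∃ r : ℤ, (p : ℤ) ∣ r ^ 2 - 1 * r + m := by
        intro y' hy' hd
        refine ⟨(y' + 1) / 2, ?_⟩
        obtain ⟨s, hs⟩ : ∃ s : ℤ, y' + 1 = 2 * s := ⟨(y' + 1) / 2, by omega⟩
        have hs2 : (y' + 1) / 2 = s := by omega
        rw [hs2]
        apply hcop.dvd_of_dvd_mul_left
        have h5 : 4 * (s ^ 2 - 1 * s + m) = y' ^ 2 - -(f : ℤ) := by
          have h6 : y' = 2 * s - 1 := by linarith
          rw [h6]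
          linear_combination (-1 : ℤ) * hm
        rw [h5]
        exact hd
      by_cases hy : y % 2 = 1
      · exact key y hy ⟨c, hc⟩
      · refine key (y + p) (by omega) ?_
        refine ⟨c + 2 * y + p, ?_⟩
        linear_combination hc

theorem chi_eight : ∃ χ : DirichletCharacter ℂ 8, χ.IsPrimitive ∧
    (∀ n : ℕ, χ (n : ZMod 8) = 0 ∨ χ (n : ZMod 8) = 1 ∨ χ (n : ZMod 8) = -1) ∧
    ∀ p : ℕ, p.Prime → ((∃ r : ℤ, (p : ℤ) ∣ r ^ 2 - 0 * r + 2) ↔ χ (p : ZMod 8) ≠ -1) := by
  let χ : DirichletCharacter ℂ 8 := ZMod.χ₈'.ringHomComp (Int.castRingHom ℂ)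
  have hχ : ∀ n : ℕ, χ (n : ZMod 8) = ((ZMod.χ₈' n : ℤ) : ℂ) := fun n => rfl
  refine ⟨χ, ?_, ?_, ?_⟩
  · change χ.conductor = 8
    have hdvd := χ.conductor_dvd_level
    by_contra hcon
    have h4 : χ.conductor ∣ 4 := by
      have h8 : χ.conductor ∣ 2 ^ 3 := hdvd
      obtain ⟨k, hk, hk2⟩ := (Nat.dvd_prime_pow Nat.prime_two).1 h8
      have hk3 : k ≠ 3 := by
        rintro rfl
        exact hcon hk2
      rw [hk2]
      have : k ≤ 2 := by omega
      exact pow_dvd_pow 2 this
    have h1 := eq_one_of_conductor χ 5 (by norm_num) (by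
      have h2 : ((5 : ℤ) : ZMod χ.conductor) = ((1 : ℤ) : ZMod χ.conductor) := by
        rw [ZMod.intCast_eq_intCast_iff_dvd_sub]
        have h3 : ((χ.conductor : ℕ) : ℤ) ∣ ((4 : ℕ) : ℤ) := Int.natCast_dvd_natCast.2 h4
        have h5 : (1 : ℤ) - 5 = -((4 : ℕ) : ℤ) := by norm_num
        rw [h5]
        exact (dvd_neg).2 h3
      rw [h2, Int.cast_one])
    have h5 : χ ((5 : ℤ) : ZMod 8) = -1 := by
      have h6 := hχ 5
      have h7 : ZMod.χ₈' ((5 : ℕ) : ZMod 8) = -1 := by decide
      rw [h7] at h6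
      have h8 : ((5 : ℤ) : ZMod 8) = ((5 : ℕ) : ZMod 8) := by norm_num
      rw [h8, h6]
      norm_num
    rw [h5] at h1
    norm_num at h1
  · intro n
    rw [hχ, ZMod.χ₈'_nat_eq_if_mod_eight]
    split_ifs
    · left; simp
    · right; left; simp
    · right; right; simp
  · intro p hp
    have hpfact : Fact p.Prime := ⟨hp⟩
    rw [hχ, ZMod.χ₈'_nat_eq_if_mod_eight]
    by_cases hp2 : p = 2
    · subst hp2
      constructor
      · intro _
        norm_num
      · intro _
        exact ⟨0, 1, by norm_num⟩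
    have hpodd : p % 2 = 1 := (Nat.Prime.mod_two_eq_one_iff_ne_two hp).2 hp2
    have h1 : (∃ r : ℤ, (p : ℤ) ∣ r ^ 2 - 0 * r + 2) ↔ (p % 8 = 1 ∨ p % 8 = 3) := by
      rw [← ZMod.exists_sq_eq_neg_two_iff hp2]
      have h2 := isSquare_iff_exists p (-2)
      have h3 : ((-2 : ℤ) : ZMod p) = -2 := by norm_num
      rw [h3] at h2
      rw [h2]
      have h4 : ∀ r : ℤ, r ^ 2 - 0 * r + 2 = r ^ 2 - (-2) := fun r => by ring
      simp only [h4]
    rw [h1, if_neg (by omega)]
    constructor
    · intro h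
      rw [if_pos h]
      norm_num
    · intro h
      by_contra hcon
      rw [if_neg hcon] at h
      apply h
      norm_num

end Pool.Agent.W551.EG.CHI
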